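import Mathlib
import Pool.Agent.Q67.CorAlg.Main

/-!
# The corona theorem for the closed algebra generated by one arbitrary function and the functions
# of one linear coordinate

`B` is the unit ball of `ℂⁿ`.  Let `G` be an arbitrary bounded holomorphic function on `B`, and
consider the closed subalgebra of `H^∞(B)` generated by `G` and by ALL functions `f ∘ ψ`, where `f`
is a bounded holomorphic function on the unit disc and `ψ` a holomorphic map from `B` to the disc
with affine fibres (for instance a linear functional, or a coordinate of an automorphism of `B`).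
The corona theorem holds for all data in this algebra: if `∑ |F_j| ≥ δ` on `B`, then
`∑ F_j g_j = 1` for some `g_j ∈ H^∞(B)`.  The bound for the `g_j` is uniform: it depends on the
number of functions, on `δ` and on the rate with which the `F_j` are approximated by polynomials in
`G` and functions `f ∘ ψ`, and neither on the functions nor on the dimension.

Outline.  If the bounds were not uniform, there would be data `F^(m)` on balls `B_m` without
solutions bounded by `m`.  In the Banach algebra of the bounded sequences of elements of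
`H^∞(B_m)` these data would generate a proper ideal, annihilated by a character `φ`.  For finitely
many sequences `h_i` of functions `f ∘ ψ` the functions `h_i - φ(h_i)` and `G - φ(G)` are not
bounded below, because otherwise the localisation theorem of the starting library
(`Pool.Agent.Y263.GF`) would give solutions of the Bezout equation with a common bound.  Hence `φ`
is a limit of evaluations at points of the balls on the closed algebra generated by these sequences,
which contradicts the lower bound.
-/

set_option autoImplicit false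

open Metric Set

namespace Pool.Agent.Results.MP_ca0fc2_an.ClosedAlgebra

abbrev V (n : ℕ) := EuclideanSpace ℂ (Fin n)

/-- `ψ` is a holomorphic map from the unit ball to the unit disc, and the fibre of `ψ` through any
point `z` is the part in the ball of the affine subspace `z + ker ψ'(z)`. -/
def HasAffineFibres {n : ℕ} (ψ : V n → ℂ) : Prop :=
  DifferentiableOn ℂ ψ (ball 0 1) ∧ (∀ z ∈ ball (0 : V n) 1, ‖ψ z‖ < 1) ∧
    ∀ z ∈ ball (0 : V n) 1, ∀ z' ∈ ball (0 : V n) 1, ψ z' = ψ z ↔ fderiv ℂ ψ z (z' - z) = 0

/-- The generators: the function `G` and the functions `f k ∘ ψ k`. -/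
def gens {n K : ℕ} (ψ : Fin K → V n → ℂ) (f : Fin K → ℂ → ℂ) (G : V n → ℂ) (z : V n) :
    Option (Fin K) → ℂ
  | none => G z
  | some k => f k (ψ k z)

/-- On the unit ball, `F` is within `ε` of a polynomial of degree at most `c`, with coefficients of
absolute value at most `c`, in `G` and in `c` functions `f k ∘ ψ k`, where `f k` is holomorphic and
bounded by one on the unit disc and `ψ k` has affine fibres. -/
def IsNear {n : ℕ} (c : ℕ) (ε : ℝ) (G F : V n → ℂ) : Prop :=
  ∃ (ψ : Fin c → V n → ℂ) (f : Fin c → ℂ → ℂ) (P : MvPolynomial (Option (Fin c)) ℂ),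
    (∀ k, HasAffineFibres (ψ k)) ∧
    (∀ k, DifferentiableOn ℂ (f k) (ball 0 1) ∧ ∀ w ∈ ball (0 : ℂ) 1, ‖f k w‖ ≤ 1) ∧
    P.totalDegree ≤ c ∧ (∀ a, ‖P.coeff a‖ ≤ c) ∧
    ∀ z ∈ ball (0 : V n) 1, ‖F z - MvPolynomial.eval (gens ψ f G z) P‖ ≤ ε

/-- **The corona theorem for the closed algebra generated by one arbitrary function and all
functions of maps with affine fibres, with constants independent of the dimension.** -/
theorem result (M : ℕ) (c : ℕ → ℕ) (δ : ℝ) (hδ : 0 < δ) :
    ∃ C : ℝ, ∀ (n : ℕ) (G : V n → ℂ) (F : Fin M → V n → ℂ),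
      DifferentiableOn ℂ G (ball 0 1) → (∀ z ∈ ball (0 : V n) 1, ‖G z‖ ≤ 1) →
      (∀ j, DifferentiableOn ℂ (F j) (ball 0 1)) →
      (∀ (k : ℕ) (j : Fin M), IsNear (c k) (1 / ((k : ℝ) + 1)) G (F j)) →
      (∀ z ∈ ball (0 : V n) 1, δ ≤ ∑ j, ‖F j z‖) →
      ∃ g : Fin M → V n → ℂ, (∀ j, DifferentiableOn ℂ (g j) (ball 0 1)) ∧
        (∀ j, ∀ z ∈ ball (0 : V n) 1, ‖g j z‖ ≤ C) ∧
        ∀ z ∈ ball (0 : V n) 1, ∑ j, F j z * g j z = 1 := by
  obtain ⟨C, H⟩ := Pool.Agent.Q67.CorAlg.unif M c hδ
  refine ⟨C, ?_⟩
  intro n G F h1 h2 h3 h4 h5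
  refine H n G F h1 h2 h3 (fun k j => ?_) h5
  obtain ⟨ψ, f, P, a1, a2, a3, a4, a5⟩ := h4 k j
  refine ⟨ψ, f, P, fun i => ⟨⟨(a1 i).1, (a1 i).2.2⟩, (a1 i).2.1⟩, a2, a3, a4, fun z hz => ?_⟩
  have e1 : Pool.Agent.Q67.CorAlg.vals ψ f G z = gens ψ f G z := by
    funext i
    cases i <;> rfl
  rw [e1]
  exact a5 z hz

end Pool.Agent.Results.MP_ca0fc2_an.ClosedAlgebra
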