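import Mathlib
import Pool.Agent.Q75.CpA

set_option autoImplicit false

/-!
# Corona constants of strongly convex domains and polydiscs in `ℂⁿ` of size at least `exp (c n)`

For every `0 < δ < 1` there is `c > 0` such that in every sufficiently large dimension `n` there are
`n + 1` holomorphic functions `f_0, …, f_n` on the unit polydisc with `δ² < ∑ |f_j|² ≤ 1` and a
radius `r < 1` such that on every open set `D` between the closed polydisc of radius `r` and the open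
unit polydisc every holomorphic solution of `∑ f_j h_j = 1` has `|h_0| > exp (c n)` somewhere on `D`;
and there are strongly convex domains with real analytic boundary among these sets `D`.

The data are `f_0 = a cos θ(u)`, `f_j = a sin θ(u) z_j^{k+1} / √n`, where `u = z_1 ⋯ z_n`, `k + 1` is
about `μ n` and `θ` is a conformal map of the disc onto a thin strip. By the inequality between
the arithmetic and the geometric mean `∑ |z_j|^{2(k+1)} / n` is close to `1` wherever `u` is not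
small, while no power `u^j` with `j ≤ k` is in the ideal generated by the `z_j^{k+1}`.
-/

open Set Metric
open Pool.Agent.H720R2

namespace Pool.Agent.Results.MP_ca0fc2_an.ConvexDomainsExponential

/-- `D` is a strongly convex domain of `ℂⁿ` with smooth boundary: `D = {ρ < 0}`, where `ρ` is of
class `C^∞` on `ℂⁿ` and strongly convex, that is,
`ρ(t x + (1 - t) y) ≤ t ρ(x) + (1 - t) ρ(y) - κ t (1 - t) |x - y|²` for some `κ > 0`,
and `ρ` takes a negative value. -/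
def StronglyConvexDomain {n : ℕ} (D : Set (Fin n → ℂ)) : Prop :=
  ∃ (ρ : (Fin n → ℂ) → ℝ) (κ : ℝ), 0 < κ ∧ ContDiff ℝ (⊤ : ℕ∞) ρ ∧
    (∀ x y : Fin n → ℂ, ∀ t : ℝ, 0 ≤ t → t ≤ 1 →
      ρ (t • x + (1 - t) • y) ≤
        t * ρ x + (1 - t) * ρ y - κ * (t * (1 - t)) * ∑ j, ‖x j - y j‖ ^ 2) ∧
    D = {z | ρ z < 0} ∧ D.Nonempty

/-- The parallelogram identity. -/
theorem norm_sq_comb (x y : ℂ) (t : ℝ) :
    ‖t • x + (1 - t) • y‖ ^ 2 = t * ‖x‖ ^ 2 + (1 - t) * ‖y‖ ^ 2 - t * (1 - t) * ‖x - y‖ ^ 2 := by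
  simp only [← Complex.normSq_eq_norm_sq, Complex.normSq_apply, Complex.real_smul,
    Complex.add_re, Complex.mul_re, Complex.ofReal_re, Complex.ofReal_im, Complex.add_im,
    Complex.mul_im, Complex.sub_re, Complex.sub_im]
  ring

/-- Convexity of the powers of the modulus. -/
theorem pow_norm_comb (x y : ℂ) {t : ℝ} (h0 : 0 ≤ t) (h1 : t ≤ 1) (p : ℕ) :
    (‖t • x + (1 - t) • y‖ ^ 2) ^ p ≤ t * (‖x‖ ^ 2) ^ p + (1 - t) * (‖y‖ ^ 2) ^ p := by
  have h2 : ‖t • x + (1 - t) • y‖ ^ 2 ≤ t * ‖x‖ ^ 2 + (1 - t) * ‖y‖ ^ 2 := by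
    rw [norm_sq_comb]
    have : 0 ≤ t * (1 - t) * ‖x - y‖ ^ 2 := by
      have : 0 ≤ 1 - t := by linarith
      positivity
    linarith
  have h3 := (convexOn_pow p).2 (x := ‖x‖ ^ 2) (y := ‖y‖ ^ 2) (mem_Ici.2 (by positivity))
    (mem_Ici.2 (by positivity)) h0 (by linarith : (0 : ℝ) ≤ 1 - t) (by ring)
  simp only [smul_eq_mul] at h3
  exact (pow_le_pow_left₀ (by positivity) h2 p).trans h3

/-- Between a closed polydisc of radius `r < 1` and the unit polydisc there is a strongly convex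
domain. -/
theorem exists_stronglyConvex {n : ℕ} {r : ℝ} (hr : 0 < r) (hr1 : r < 1) :
    ∃ D : Set (Fin n → ℂ), StronglyConvexDomain D ∧ IsOpen D ∧ closedBall 0 r ⊆ D ∧
      D ⊆ ball 0 1 := by
  obtain ⟨p, hp0, hp⟩ : ∃ p : ℕ, 0 < p ∧ (n : ℝ) * ((r ^ 2) ^ p + 1 / p) < 1 := by
    have h1 : Filter.Tendsto (fun p : ℕ => (n : ℝ) * ((r ^ 2) ^ p + 1 / p)) Filter.atTop
        (nhds ((n : ℝ) * (0 + 0))) := by
      refine Filter.Tendsto.const_mul _ (Filter.Tendsto.add ?_ tendsto_one_div_atTop_nhds_zero_nat)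
      exact tendsto_pow_atTop_nhds_zero_of_lt_one (by positivity) (by nlinarith)
    rw [add_zero, mul_zero] at h1
    obtain ⟨p, h⟩ := ((Filter.eventually_gt_atTop 0).and
      (h1.eventually_lt_const (by norm_num : (0 : ℝ) < 1))).exists
    exact ⟨p, h⟩
  have hp' : (0 : ℝ) < p := by exact_mod_cast hp0
  set ρ : (Fin n → ℂ) → ℝ := fun z => ∑ j, ((‖z j‖ ^ 2) ^ p + ‖z j‖ ^ 2 / p) - 1 with hρ
  have hsm : ContDiff ℝ (⊤ : ℕ∞) ρ := by
    have h1 : ∀ j : Fin n, ContDiff ℝ (⊤ : ℕ∞) (fun z : Fin n → ℂ => ‖z j‖ ^ 2) := fun j =>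
      (contDiff_norm_sq ℝ).comp (contDiff_apply ℝ ℂ j)
    refine ContDiff.sub (ContDiff.sum fun j _ => ?_) contDiff_const
    exact ((h1 j).pow p).add ((h1 j).div_const _)
  have hsub : {z | ρ z < 0} ⊆ ball (0 : Fin n → ℂ) 1 := by
    intro z hz
    rw [mem_ball_zero_iff, pi_norm_lt_iff one_pos]
    intro i
    by_contra hcon
    push Not at hcon
    have h1 : 1 ≤ (‖z i‖ ^ 2) ^ p := one_le_pow₀ (one_le_pow₀ hcon)
    have h2 : (‖z i‖ ^ 2) ^ p + ‖z i‖ ^ 2 / p ≤ ∑ j, ((‖z j‖ ^ 2) ^ p + ‖z j‖ ^ 2 / p) :=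
      Finset.single_le_sum (f := fun j => (‖z j‖ ^ 2) ^ p + ‖z j‖ ^ 2 / p)
        (fun j _ => by positivity) (Finset.mem_univ i)
    have h3 : 0 ≤ ‖z i‖ ^ 2 / p := by positivity
    have h4 : ρ z < 0 := hz
    rw [hρ] at h4
    simp only at h4
    linarith
  have hcl : closedBall (0 : Fin n → ℂ) r ⊆ {z | ρ z < 0} := by
    intro z hz
    rw [mem_closedBall_zero_iff] at hz
    have h1 : ∀ j, ‖z j‖ ≤ r := fun j => (norm_le_pi_norm z j).trans hz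
    have h2 : ∑ j, ((‖z j‖ ^ 2) ^ p + ‖z j‖ ^ 2 / p) ≤ ∑ _j : Fin n, ((r ^ 2) ^ p + 1 / p) := by
      refine Finset.sum_le_sum fun j _ => add_le_add ?_ ?_
      · have := h1 j
        gcongr
      · have h3 : ‖z j‖ ^ 2 ≤ 1 := pow_le_one₀ (norm_nonneg _) ((h1 j).trans hr1.le)
        gcongr
    rw [Finset.sum_const, Finset.card_univ, Fintype.card_fin, nsmul_eq_mul] at h2
    show ∑ j, ((‖z j‖ ^ 2) ^ p + ‖z j‖ ^ 2 / p) - 1 < 0
    linarith
  refine ⟨{z | ρ z < 0}, ⟨ρ, 1 / p, by positivity, hsm, ?_, rfl, ⟨0, hcl (by simp [hr.le])⟩⟩,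
    isOpen_lt hsm.continuous continuous_const, hcl, hsub⟩
  intro x y t h0 h1
  have hterm : ∀ j, (‖(t • x + (1 - t) • y) j‖ ^ 2) ^ p + ‖(t • x + (1 - t) • y) j‖ ^ 2 / p ≤
      t * ((‖x j‖ ^ 2) ^ p + ‖x j‖ ^ 2 / p) + (1 - t) * ((‖y j‖ ^ 2) ^ p + ‖y j‖ ^ 2 / p) -
        1 / p * (t * (1 - t)) * ‖x j - y j‖ ^ 2 := by
    intro j
    have e : (t • x + (1 - t) • y) j = t • x j + (1 - t) • y j := rfl
    rw [e]
    have h2 := pow_norm_comb (x j) (y j) h0 h1 p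
    have h3 := norm_sq_comb (x j) (y j) t
    have h4 : ‖t • x j + (1 - t) • y j‖ ^ 2 / p =
        t * (‖x j‖ ^ 2 / p) + (1 - t) * (‖y j‖ ^ 2 / p) - 1 / p * (t * (1 - t)) * ‖x j - y j‖ ^ 2 := by
      rw [h3]; ring
    rw [h4]
    linarith
  have hs := Finset.sum_le_sum fun j (_ : j ∈ Finset.univ) => hterm j
  have hs' : ∑ j, (t * ((‖x j‖ ^ 2) ^ p + ‖x j‖ ^ 2 / p) + (1 - t) * ((‖y j‖ ^ 2) ^ p +
      ‖y j‖ ^ 2 / p) - 1 / p * (t * (1 - t)) * ‖x j - y j‖ ^ 2) =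
      t * (∑ j, ((‖x j‖ ^ 2) ^ p + ‖x j‖ ^ 2 / p)) + (1 - t) * (∑ j, ((‖y j‖ ^ 2) ^ p +
      ‖y j‖ ^ 2 / p)) - 1 / p * (t * (1 - t)) * ∑ j, ‖x j - y j‖ ^ 2 := by
    rw [Finset.mul_sum, Finset.mul_sum, Finset.mul_sum, ← Finset.sum_add_distrib,
      ← Finset.sum_sub_distrib]
  rw [hs'] at hs
  show ∑ j, ((‖(t • x + (1 - t) • y) j‖ ^ 2) ^ p + ‖(t • x + (1 - t) • y) j‖ ^ 2 / p) - 1 ≤
    t * (∑ j, ((‖x j‖ ^ 2) ^ p + ‖x j‖ ^ 2 / p) - 1) +
      (1 - t) * (∑ j, ((‖y j‖ ^ 2) ^ p + ‖y j‖ ^ 2 / p) - 1) -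
      1 / p * (t * (1 - t)) * ∑ j, ‖x j - y j‖ ^ 2
  linarith

/-- For every `0 < δ < 1` there are `c > 0` and `n₀` such that for every `n ≥ n₀` there are `n + 1`
holomorphic functions `f_0, …, f_n` on the unit polydisc `ball 0 1` of `ℂⁿ` (`Fin n → ℂ` carries the
maximum norm) with `δ² < ∑ |f_j|² ≤ 1` and a radius `r < 1` such that
(1) for every open `D` with `closedBall 0 r ⊆ D ⊆ ball 0 1`, every holomorphic solution
`(h_j)` of `∑ f_j h_j = 1` on `D` satisfies `|h_0(z)| > exp (c n)` for some `z ∈ D`, and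
(2) there is a strongly convex domain `D` with smooth boundary and
`closedBall 0 r ⊆ D ⊆ ball 0 1`. -/
theorem result (δ : ℝ) (hδ0 : 0 < δ) (hδ : δ < 1) :
    ∃ c : ℝ, 0 < c ∧ ∃ n₀ : ℕ, ∀ n ≥ n₀, ∃ (f : Fin (n + 1) → (Fin n → ℂ) → ℂ) (r : ℝ),
      (∀ j, DifferentiableOn ℂ (f j) (ball 0 1)) ∧
      (∀ z ∈ ball (0 : Fin n → ℂ) 1, ∑ j, ‖f j z‖ ^ 2 ≤ 1) ∧
      (∀ z ∈ ball (0 : Fin n → ℂ) 1, δ ^ 2 < ∑ j, ‖f j z‖ ^ 2) ∧
      0 < r ∧ r < 1 ∧
      (∀ D : Set (Fin n → ℂ), IsOpen D → closedBall 0 r ⊆ D → D ⊆ ball 0 1 →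
        ∀ h : Fin (n + 1) → (Fin n → ℂ) → ℂ, (∀ j, DifferentiableOn ℂ (h j) D) →
        (∀ z ∈ D, ∑ j, f j z * h j z = 1) → ∃ z ∈ D, Real.exp (c * n) < ‖h 0 z‖) ∧
      (∃ D : Set (Fin n → ℂ), StronglyConvexDomain D ∧ IsOpen D ∧ closedBall 0 r ⊆ D ∧
        D ⊆ ball 0 1) := by
  obtain ⟨c, hc, hc2, hc3⟩ := exists_c hδ0.le hδ
  set η : ℝ := (1 - δ ^ 2) / 2 with hη
  have hη0 : 0 < η := by rw [hη]; nlinarith
  set μ : ℝ := η / 8 with hμ
  have hμ0 : 0 < μ := by positivity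
  -- the zero
  obtain ⟨t₀, ht1, ht2⟩ := exists_zero hc
  have ht0 : 0 < ‖t₀‖ := by
    rw [norm_pos_iff]
    rintro rfl
    rw [fA_zero] at ht2
    exact one_ne_zero ht2
  set β : ℝ := (1 + ‖t₀‖) / 2 with hβ
  have hβ1 : ‖t₀‖ < β := by rw [hβ]; linarith
  have hβ2 : β < 1 := by rw [hβ]; linarith
  have hβ0 : 0 < β := by linarith
  obtain ⟨C, hC1, hC⟩ : ∃ C : ℝ, 1 ≤ C ∧ ∀ z : ℂ, ‖z‖ = β → ‖dslope (fA c) t₀ z‖ ≤ C := by
    have hd : DifferentiableOn ℂ (dslope (fA c) t₀) (ball 0 1) := by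
      have h1 : ball (0 : ℂ) 1 ∈ nhds t₀ := isOpen_ball.mem_nhds (by
        rw [mem_ball_zero_iff]; linarith)
      exact (Complex.differentiableOn_dslope h1).2 (differentiableOn_fA c)
    have hsub : sphere (0 : ℂ) β ⊆ ball 0 1 := fun z hz => by
      rw [mem_sphere_zero_iff_norm] at hz
      rw [mem_ball_zero_iff, hz]; exact hβ2
    obtain ⟨C, hC⟩ := (isCompact_sphere (0 : ℂ) β).exists_bound_of_continuousOn
      (hd.continuousOn.mono hsub)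
    exact ⟨max C 1, le_max_right _ _, fun z hz =>
      (hC z (mem_sphere_zero_iff_norm.2 hz)).trans (le_max_left _ _)⟩
  set lam : ℝ := β / ‖t₀‖ with hlam
  have hlam1 : 1 < lam := by rw [hlam, one_lt_div ht0]; exact hβ1
  have hlam0 : 0 < lam := by linarith
  have hlog : 0 < Real.log lam := Real.log_pos hlam1
  -- the threshold
  obtain ⟨K₀, hK₀⟩ : ∃ K₀ : ℕ, ∀ K ≥ K₀, C ^ 2 * lam ^ 3 < lam ^ K := by
    obtain ⟨K₀, h⟩ := Filter.eventually_atTop.1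
      ((tendsto_pow_atTop_atTop_of_one_lt hlam1).eventually_gt_atTop (C ^ 2 * lam ^ 3))
    exact ⟨K₀, h⟩
  refine ⟨μ * Real.log lam / 2, by positivity, ⌈(K₀ + 2) / μ⌉₊, fun n hn => ?_⟩
  have hnμ : (K₀ : ℝ) + 2 ≤ μ * n := by
    have h1 : (K₀ + 2) / μ ≤ n := (Nat.le_ceil _).trans (by exact_mod_cast hn)
    rw [div_le_iff₀ hμ0] at h1
    linarith
  set K : ℕ := ⌊μ * n⌋₊ with hK
  have hKle : (K : ℝ) ≤ μ * n := Nat.floor_le (by positivity)
  have hKgt : μ * n < K + 1 := Nat.lt_floor_add_one _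
  have hKK : K₀ < K := by
    have : (K₀ : ℝ) < K := by linarith
    exact_mod_cast this
  obtain ⟨k, hk⟩ : ∃ k, K = k + 1 := ⟨K - 1, by omega⟩
  have hn0 : 0 < n := by
    rcases Nat.eq_zero_or_pos n with h | h
    · exfalso
      rw [h] at hnμ
      have : (0 : ℝ) ≤ K₀ := Nat.cast_nonneg _
      simp only [Nat.cast_zero, mul_zero] at hnμ
      linarith
    · exact h
  have hn' : (0 : ℝ) < n := by exact_mod_cast hn0
  have hlow : δ ^ 2 < (Real.cosh (2 * (c * Real.pi)))⁻¹ - 4 * ((k + 1 : ℕ) / n : ℝ) := by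
    rw [← hk]
    have h1 : (K : ℝ) / n ≤ μ := by rw [div_le_iff₀ hn']; exact hKle
    have h2 : (1 + δ ^ 2) / 2 = δ ^ 2 + η := by rw [hη]; ring
    have h3 : μ = η / 8 := hμ
    linarith
  obtain ⟨f, hf1, hf2, hf3, r, hr0, hr1, hf4⟩ := Pool.Agent.Q75.Cp.core (δ := δ) hc hc2 hn0 hlow
    ht2 hβ1 hβ2 hC
  refine ⟨f, r, hf1, hf2, hf3, hr0, hr1, fun D hD hD1 hD2 h hh hsol => ?_,
    exists_stronglyConvex hr0 hr1⟩
  by_contra hcon
  push Not at hcon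
  have key := hf4 D hD hD1 hD2 h hh hsol _ hcon
  set E : ℝ := Real.exp (μ * Real.log lam / 2 * n) with hE
  have hE2 : E ^ 2 ≤ lam ^ (K + 1) := by
    calc E ^ 2 = Real.exp (μ * Real.log lam * n) := by
          rw [hE, ← Real.exp_nat_mul]; congr 1; push_cast; ring
      _ ≤ Real.exp (((K + 1 : ℕ) : ℝ) * Real.log lam) := by
          apply Real.exp_le_exp.2
          push_cast
          nlinarith
      _ = lam ^ (K + 1) := by
          rw [Real.exp_nat_mul, Real.exp_log hlam0]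
  have h1 : (lam ^ k) ^ 2 ≤ C ^ 2 * lam ^ (K + 1) := by
    calc (lam ^ k) ^ 2 ≤ (C * E) ^ 2 := by gcongr
      _ = C ^ 2 * E ^ 2 := by ring
      _ ≤ C ^ 2 * lam ^ (K + 1) := by gcongr
  have h2 : (lam ^ k) ^ 2 * lam ^ 3 = lam ^ K * lam ^ (K + 1) := by
    rw [← pow_mul, ← pow_add, ← pow_add]
    congr 1
    omega
  have h3 : lam ^ K * lam ^ (K + 1) ≤ (C ^ 2 * lam ^ 3) * lam ^ (K + 1) := by
    rw [← h2]
    calc (lam ^ k) ^ 2 * lam ^ 3 ≤ (C ^ 2 * lam ^ (K + 1)) * lam ^ 3 := by gcongr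
      _ = (C ^ 2 * lam ^ 3) * lam ^ (K + 1) := by ring
  have h4 : lam ^ K ≤ C ^ 2 * lam ^ 3 := le_of_mul_le_mul_right h3 (by positivity)
  exact absurd (hK₀ K hKK.le) (not_lt.2 h4)

end Pool.Agent.Results.MP_ca0fc2_an.ConvexDomainsExponential
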