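import Mathlib
import Pool.Agent.Q75.CuI

set_option autoImplicit false

/-!
# The corona constants of the unit balls grow at least like `exp (c n^{1/4})`

For every `0 < δ < 1` there is `c > 0` such that in every sufficiently large dimension `n` there are
finitely many holomorphic functions `f_0, …, f_N` on the unit ball of `ℂⁿ` with
`δ² < ∑ |f_j|² ≤ 1` such that for every holomorphic solution `h` of `∑ f_j h_j = 1` on the ball the
function `h_0` exceeds `exp (c n^{1/4})` somewhere.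

The first `q²` coordinates, `q = ⌊√n⌋`, are the entries of a matrix `Z`. The data are
`f_0 = a cos θ(u)` and `f_{w,w'} = a sin θ(u) φ_{w,w'}(Z)`, where `u = q^{q/2} det Z`, `θ` is a
conformal map of the disc onto a thin strip, and `φ_{w,w'}` are the entries of
`(1 - P) Z^{⊗ m}`, `m = ⌊μ q⌋`, where `P` is the orthogonal projection on the space of tensors
all of whose contractions with powers `ξ^{⊗ (k+1)}` vanish, `k + 1 = ⌊√(m/6)⌋`. A count of the words
without weakly increasing subsequences of length `k + 1` shows that `∑ |φ_{w,w'}|²` is close to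
`‖Z‖^{2m}`, and the functionals `H ↦ ∫ H(sU) (conj det U)^j dU`, `j ≤ k`, on the unitary group
annihilate the ideal generated by the `φ_{w,w'}`, but not the powers of `u`.
-/

open Set Metric
open Pool.Agent.H720R2

namespace Pool.Agent.Results.MP_ca0fc2_an.ExponentialGrowth

/-- The open unit ball of `ℂⁿ` for the Euclidean norm. -/
def Ball (n : ℕ) : Set (Fin n → ℂ) := {z | ∑ i, ‖z i‖ ^ 2 < 1}

/-- For every `0 < δ < 1` there are `c > 0` and `n₀` such that for every `n ≥ n₀` there are finitely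
many holomorphic functions `f_0, …, f_N` on the unit ball of `ℂⁿ` with `δ² < ∑ |f_j|² ≤ 1` for which
every holomorphic solution `(h_j)` of `∑ f_j h_j = 1` on the ball satisfies
`|h_0(z)| > exp (c n^{1/4})` for some `z` in the ball. -/
theorem result (δ : ℝ) (hδ0 : 0 < δ) (hδ : δ < 1) :
    ∃ c : ℝ, 0 < c ∧ ∃ n₀ : ℕ, ∀ n ≥ n₀, ∃ (N : ℕ) (f : Fin (N + 1) → (Fin n → ℂ) → ℂ),
      (∀ j, DifferentiableOn ℂ (f j) (Ball n)) ∧
      (∀ z ∈ Ball n, ∑ j, ‖f j z‖ ^ 2 ≤ 1) ∧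
      (∀ z ∈ Ball n, δ ^ 2 < ∑ j, ‖f j z‖ ^ 2) ∧
      ∀ h : Fin (N + 1) → (Fin n → ℂ) → ℂ, (∀ j, DifferentiableOn ℂ (h j) (Ball n)) →
        (∀ z ∈ Ball n, ∑ j, f j z * h j z = 1) →
        ∃ z ∈ Ball n, Real.exp (c * (n : ℝ) ^ ((1 : ℝ) / 4)) < ‖h 0 z‖ := by
  obtain ⟨c, hc, hc2, hc3⟩ := exists_c hδ0.le hδ
  set η : ℝ := (1 - δ ^ 2) / 2 with hη
  have hη0 : 0 < η := by rw [hη]; nlinarith
  set μ : ℝ := η / 8 with hμ
  have hμ0 : 0 < μ := by positivity
  -- the zero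
  obtain ⟨t₀, ht1, ht2⟩ := exists_zero hc
  have ht0 : 0 < ‖t₀‖ := by
    rw [norm_pos_iff]
    rintro rfl
    rw [fA_zero] at ht2
    exact one_ne_zero ht2
  set β : ℝ := (1 + ‖t₀‖) / 2 with hβ
  have hβ1 : ‖t₀‖ < β := by rw [hβ]; linarith
  have hβ2 : β < 1 := by rw [hβ]; linarith
  have hβ0 : 0 < β := by linarith
  obtain ⟨C, hC1, hC⟩ : ∃ C : ℝ, 1 ≤ C ∧ ∀ z : ℂ, ‖z‖ = β → ‖dslope (fA c) t₀ z‖ ≤ C := by
    have hd : DifferentiableOn ℂ (dslope (fA c) t₀) (ball 0 1) := by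
      have h1 : ball (0 : ℂ) 1 ∈ nhds t₀ := isOpen_ball.mem_nhds (by
        rw [mem_ball_zero_iff]; linarith)
      exact (Complex.differentiableOn_dslope h1).2 (differentiableOn_fA c)
    have hsub : sphere (0 : ℂ) β ⊆ ball 0 1 := fun z hz => by
      rw [mem_sphere_zero_iff_norm] at hz
      rw [mem_ball_zero_iff, hz]; exact hβ2
    obtain ⟨C, hC⟩ := (isCompact_sphere (0 : ℂ) β).exists_bound_of_continuousOn
      (hd.continuousOn.mono hsub)
    exact ⟨max C 1, le_max_right _ _, fun z hz =>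
      (hC z (mem_sphere_zero_iff_norm.2 hz)).trans (le_max_left _ _)⟩
  set lam : ℝ := β / ‖t₀‖ with hlam
  have hlam1 : 1 < lam := by rw [hlam, one_lt_div ht0]; exact hβ1
  have hlam0 : 0 < lam := by linarith
  have hlog : 0 < Real.log lam := Real.log_pos hlam1
  set A : ℝ := Real.sqrt (6 / μ + 1) with hA
  have hA0 : 0 < A := Real.sqrt_pos.2 (by positivity)
  have hA2 : A ^ 2 = 6 / μ + 1 := Real.sq_sqrt (by positivity)
  -- the threshold
  obtain ⟨K₀, hK₀⟩ : ∃ K₀ : ℕ, ∀ K ≥ K₀, 1 ≤ K ∧ ((1 : ℝ) / 2) ^ K ≤ η / 4 ∧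
      (β * C) ^ 2 < lam ^ (K - 1) := by
    have h1 : ∀ᶠ K : ℕ in Filter.atTop, ((1 : ℝ) / 2) ^ K ≤ η / 4 :=
      (tendsto_pow_atTop_nhds_zero_of_lt_one (by norm_num) (by norm_num)).eventually_le_const
        (by positivity)
    have h2 : ∀ᶠ K : ℕ in Filter.atTop, (β * C) ^ 2 < lam ^ (K - 1) := by
      have h3 : Filter.Tendsto (fun K : ℕ => K - 1) Filter.atTop Filter.atTop :=
        Filter.tendsto_sub_atTop_nat 1
      exact ((tendsto_pow_atTop_atTop_of_one_lt hlam1).comp h3).eventually_gt_atTop _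
    obtain ⟨K₀, h⟩ := Filter.eventually_atTop.1
      ((Filter.eventually_ge_atTop 1).and (h1.and h2))
    exact ⟨K₀, h⟩
  refine ⟨Real.log lam / (2 * A), by positivity, ⌈(A * (K₀ + 1)) ^ 4⌉₊, fun n hn => ?_⟩
  -- the parameters
  set q : ℕ := Nat.sqrt n with hq
  set m : ℕ := ⌊μ * q⌋₊ with hm
  set K : ℕ := Nat.sqrt (m / 6) with hK
  have hKA : (n : ℝ) ≤ (A * (K + 1)) ^ 4 := by
    have h1 : n < (q + 1) * (q + 1) := Nat.lt_succ_sqrt n
    have h2 : m / 6 < (K + 1) * (K + 1) := Nat.lt_succ_sqrt (m / 6)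
    have h3 : m + 1 ≤ 6 * ((K + 1) * (K + 1)) := by omega
    have h4 : μ * q < m + 1 := Nat.lt_floor_add_one _
    have h5 : (m : ℝ) + 1 ≤ 6 * ((K + 1) * (K + 1)) := by exact_mod_cast h3
    have h6 : (q : ℝ) ≤ 6 / μ * (K + 1) ^ 2 := by
      rw [div_mul_eq_mul_div, le_div_iff₀ hμ0]
      nlinarith
    have h7 : (q : ℝ) + 1 ≤ A ^ 2 * (K + 1) ^ 2 := by
      rw [hA2]
      have : (1 : ℝ) ≤ (K + 1) ^ 2 := by
        have : (0 : ℝ) ≤ K := Nat.cast_nonneg K
        nlinarith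
      linarith
    have h8 : (n : ℝ) ≤ (q + 1) * (q + 1) := by exact_mod_cast h1.le
    calc (n : ℝ) ≤ (q + 1) * (q + 1) := h8
      _ ≤ (A ^ 2 * (K + 1) ^ 2) * (A ^ 2 * (K + 1) ^ 2) := by gcongr
      _ = (A * (K + 1)) ^ 4 := by ring
  have hKK : K₀ ≤ K := by
    have h1 : (A * (K₀ + 1)) ^ 4 ≤ (A * (K + 1)) ^ 4 :=
      (Nat.le_ceil _).trans ((by exact_mod_cast hn : ((⌈(A * (K₀ + 1)) ^ 4⌉₊ : ℕ) : ℝ) ≤ n).trans hKA)
    have h2 : A * (K₀ + 1) ≤ A * (K + 1) :=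
      le_of_pow_le_pow_left₀ (by norm_num) (by positivity) h1
    have h3 : (K₀ : ℝ) + 1 ≤ K + 1 := le_of_mul_le_mul_left h2 hA0
    have h4 : (K₀ : ℝ) ≤ K := by linarith
    exact_mod_cast h4
  obtain ⟨hK1, hK2, hK3⟩ := hK₀ K hKK
  have hKm : 6 * (K * K) ≤ m := by
    have := Nat.sqrt_le (m / 6)
    have h2 : K * K ≤ m / 6 := this
    omega
  have hm1 : K ≤ m := by nlinarith
  have hq1 : 1 ≤ q := by
    by_contra h
    have h0 : q = 0 := by omega
    have : m = 0 := by rw [hm, h0]; simp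
    omega
  have hq' : (0 : ℝ) < q := by exact_mod_cast hq1
  obtain ⟨k, hk⟩ : ∃ k, K = k + 1 := ⟨K - 1, by omega⟩
  have hkK : ((k : ℝ) + 1) = K := by rw [hk]; push_cast; ring
  -- smallness of ε
  have hε : (k + 1 : ℝ) ^ (2 * m) / m.factorial ≤ (1 / 2) ^ m := by
    rw [hkK, pow_mul]
    have h1 : (K : ℝ) ^ 2 ≤ m / 6 := by
      rw [le_div_iff₀ (by norm_num)]
      have : (6 * (K * K) : ℝ) ≤ m := by exact_mod_cast hKm
      linarith
    have h2 := Real.pow_div_factorial_le_exp (m : ℝ) (Nat.cast_nonneg m) m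
    have h3 : Real.exp (m : ℝ) ≤ 3 ^ m := by
      have h4 : Real.exp (m : ℝ) = Real.exp 1 ^ m := by rw [← Real.exp_nat_mul, mul_one]
      rw [h4]
      gcongr
      linarith [Real.exp_one_lt_d9]
    calc ((K : ℝ) ^ 2) ^ m / m.factorial ≤ ((m : ℝ) / 6) ^ m / m.factorial := by gcongr
      _ = ((m : ℝ) ^ m / m.factorial) * (1 / 6) ^ m := by
          rw [div_pow, one_div, inv_pow]; field_simp
      _ ≤ 3 ^ m * (1 / 6) ^ m := by gcongr; exact h2.trans h3
      _ = (1 / 2) ^ m := by rw [← mul_pow]; norm_num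
  have hε2 : (k + 1 : ℝ) ^ (2 * m) / m.factorial ≤ η / 4 := by
    refine hε.trans (le_trans ?_ hK2)
    exact pow_le_pow_of_le_one (by norm_num) (by norm_num) hm1
  have hε1 : (k + 1 : ℝ) ^ (2 * m) / m.factorial ≤ 1 :=
    hε.trans (pow_le_one₀ (by norm_num) (by norm_num))
  have hmq : (m : ℝ) / q ≤ μ := by
    rw [div_le_iff₀ hq']
    exact Nat.floor_le (by positivity)
  have hlow : δ ^ 2 < (Real.cosh (2 * (c * Real.pi)))⁻¹ -
      (4 * (m / q) + 2 * ((k + 1 : ℝ) ^ (2 * m) / m.factorial)) := by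
    have h1 : 4 * ((m : ℝ) / q) ≤ η / 2 := by
      have : μ = η / 8 := hμ
      linarith
    have h2 : (1 + δ ^ 2) / 2 = δ ^ 2 + η := by rw [hη]; ring
    linarith
  -- the embedding
  have hqn : q * q ≤ n := Nat.sqrt_le n
  have he : Function.Injective fun x : Fin q × Fin q => Fin.castLE hqn (finProdFinEquiv x) :=
    (Fin.castLE_injective hqn).comp finProdFinEquiv.injective
  obtain ⟨N, f, hf1, hf2, hf3, hf4⟩ := Pool.Agent.Q75.Cu.core (δ := δ) hc hc2 hq1 he hε1 hlow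
    ht2 hβ1 hβ2 hC
  refine ⟨N, f, hf1, hf2, hf3, fun h hh hsol => ?_⟩
  by_contra hcon
  push Not at hcon
  have key := hf4 h hh hsol _ hcon
  rw [← hk] at key
  -- contradiction
  have hn4 : (n : ℝ) ^ ((1 : ℝ) / 4) ≤ A * (K + 1) := by
    calc (n : ℝ) ^ ((1 : ℝ) / 4) ≤ ((A * (K + 1)) ^ 4) ^ ((1 : ℝ) / 4) := by gcongr
      _ = A * (K + 1) := by
          rw [← Real.rpow_natCast, ← Real.rpow_mul (by positivity)]
          norm_num
  have hexp : Real.exp (Real.log lam / (2 * A) * (n : ℝ) ^ ((1 : ℝ) / 4)) ^ 2 ≤ lam ^ (K + 1) := by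
    have h1 : Real.log lam / (2 * A) * (n : ℝ) ^ ((1 : ℝ) / 4) ≤
        Real.log lam / (2 * A) * (A * (K + 1)) := by gcongr
    have h2 : Real.log lam / (2 * A) * (A * (K + 1)) = Real.log lam * (K + 1) / 2 := by
      field_simp
    calc Real.exp (Real.log lam / (2 * A) * (n : ℝ) ^ ((1 : ℝ) / 4)) ^ 2
        = Real.exp (2 * (Real.log lam / (2 * A) * (n : ℝ) ^ ((1 : ℝ) / 4))) := by
          rw [← Real.exp_nat_mul]; norm_num
      _ ≤ Real.exp (((K + 1 : ℕ) : ℝ) * Real.log lam) := by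
          apply Real.exp_le_exp.2
          push_cast
          nlinarith
      _ = lam ^ (K + 1) := by
          rw [Real.exp_nat_mul, Real.exp_log hlam0]
  set E : ℝ := Real.exp (Real.log lam / (2 * A) * (n : ℝ) ^ ((1 : ℝ) / 4)) with hE
  have hE0 : 0 < E := Real.exp_pos _
  have h1 : lam ^ K ≤ β * C * E := by
    have h2 : ‖t₀‖ / β = lam⁻¹ := by rw [hlam, inv_div]
    rw [h2, inv_pow] at key
    have h3 : 0 < lam ^ K := by positivity
    have h4 : β * ((lam ^ K)⁻¹ * (C * E)) = (β * C * E) / lam ^ K := by field_simp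
    rw [h4, le_div_iff₀ h3, one_mul] at key
    exact key
  have h2 : (lam ^ K) ^ 2 ≤ (β * C) ^ 2 * lam ^ (K + 1) := by
    calc (lam ^ K) ^ 2 ≤ (β * C * E) ^ 2 := by gcongr
      _ = (β * C) ^ 2 * E ^ 2 := by ring
      _ ≤ (β * C) ^ 2 * lam ^ (K + 1) := by gcongr
  have h3 : (lam ^ K) ^ 2 = lam ^ (K - 1) * lam ^ (K + 1) := by
    rw [← pow_mul, ← pow_add]
    congr 1
    omega
  rw [h3] at h2
  have h4 : lam ^ (K - 1) ≤ (β * C) ^ 2 := le_of_mul_le_mul_right h2 (by positivity)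
  linarith

end Pool.Agent.Results.MP_ca0fc2_an.ExponentialGrowth
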