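import Mathlib
import Pool.Agent.Q77.Cp.Bad
import Pool.Agent.Q77.Cp.Three

/-!
# MP_ca0fc2_an: the corona constant of two functions is log-plurisubharmonic up to a constant

`K(f₁, f₂)` denotes the best bound for holomorphic solutions of `f₁ h₁ + f₂ h₂ = 1` on an open set
`D` of `ℂⁿ`.  Up to a factor depending only on the lower bound `δ`, the function `log K` satisfies the
sub-mean value inequality along every holomorphic family of data; random perturbations with circular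
symmetry therefore do not improve the constants; unsolvable data in a holomorphic family are of
positive length at each of their points.  For three functions this fails on a spherical shell.
-/

set_option autoImplicit false

open MeasureTheory Metric Set

namespace Pool.Agent.Results.MP_ca0fc2_an.LogPlurisubharmonic

/-- `f₁ h₁ + f₂ h₂ = 1` on `D` for some holomorphic `h₁`, `h₂` on `D` with `|h₁|, |h₂| ≤ K`. -/
def Solvable {n : ℕ} (D : Set (EuclideanSpace ℂ (Fin n))) (f₁ f₂ : EuclideanSpace ℂ (Fin n) → ℂ)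
    (K : ℝ) : Prop :=
  ∃ h₁ h₂ : EuclideanSpace ℂ (Fin n) → ℂ, DifferentiableOn ℂ h₁ D ∧ DifferentiableOn ℂ h₂ D ∧
    (∀ z ∈ D, ‖h₁ z‖ ≤ K ∧ ‖h₂ z‖ ≤ K) ∧ ∀ z ∈ D, f₁ z * h₁ z + f₂ z * h₂ z = 1

/-- A holomorphic family of holomorphic functions on `D`, bounded by `1`, with parameter `l` in the
disc `|l| < R`. -/
def Family {n : ℕ} (D : Set (EuclideanSpace ℂ (Fin n))) (R : ℝ)
    (F : EuclideanSpace ℂ (Fin n) → ℂ → ℂ) : Prop :=
  (∀ l ∈ ball (0 : ℂ) R, DifferentiableOn ℂ (fun z => F z l) D) ∧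
    (∀ z ∈ D, DifferentiableOn ℂ (F z) (ball 0 R)) ∧ ∀ z ∈ D, ∀ l ∈ ball (0 : ℂ) R, ‖F z l‖ ≤ 1

theorem result :
    -- (1) the sub-mean value inequality
    (∀ δ : ℝ, 0 < δ → ∃ C : ℝ, 0 < C ∧ ∀ (n : ℕ) (D : Set (EuclideanSpace ℂ (Fin n))), IsOpen D →
      ∀ R : ℝ, 1 < R → ∀ F₁ F₂ : EuclideanSpace ℂ (Fin n) → ℂ → ℂ, Family D R F₁ → Family D R F₂ →
      (∀ z ∈ D, ∀ l ∈ ball (0 : ℂ) R, δ ≤ ‖F₁ z l‖ ^ 2 + ‖F₂ z l‖ ^ 2) →
      ∀ M : ℝ → ℝ, Measurable M → (∀ θ, 1 ≤ M θ) →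
      IntegrableOn (fun θ => Real.log (M θ)) (Ioc 0 (2 * Real.pi)) →
      (∀ᵐ θ ∂(volume.restrict (Ioc 0 (2 * Real.pi))),
        Solvable D (fun z => F₁ z (circleMap 0 1 θ)) (fun z => F₂ z (circleMap 0 1 θ)) (M θ)) →
      Solvable D (fun z => F₁ z 0) (fun z => F₂ z 0)
        (C * Real.exp ((2 * Real.pi)⁻¹ * ∫ θ in Ioc 0 (2 * Real.pi), Real.log (M θ)))) ∧
    -- (2) random perturbations with circular symmetry
    (∀ δ : ℝ, 0 < δ → δ ≤ 1 → ∃ C : ℝ, 0 < C ∧ ∀ (n : ℕ) (D : Set (EuclideanSpace ℂ (Fin n))),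
      IsOpen D → ∀ f₁ f₂ : EuclideanSpace ℂ (Fin n) → ℂ, DifferentiableOn ℂ f₁ D →
      DifferentiableOn ℂ f₂ D → (∀ z ∈ D, ‖f₁ z‖ ≤ 1 ∧ ‖f₂ z‖ ≤ 1) →
      (∀ z ∈ D, δ ≤ ‖f₁ z‖ ^ 2 + ‖f₂ z‖ ^ 2) →
      ∀ (Ω : Type) [MeasurableSpace Ω] (μ : Measure Ω) [IsProbabilityMeasure μ] (T : ℝ → Ω → Ω),
      Measurable (fun p : ℝ × Ω => T p.1 p.2) → (∀ θ, MeasurePreserving (T θ) μ μ) →
      ∀ ξ₁ ξ₂ : Ω → EuclideanSpace ℂ (Fin n) → ℂ,
      (∀ ω, DifferentiableOn ℂ (ξ₁ ω) D ∧ DifferentiableOn ℂ (ξ₂ ω) D) →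
      (∀ ω, ∀ z ∈ D, ‖ξ₁ ω z‖ ≤ δ / 16 ∧ ‖ξ₂ ω z‖ ≤ δ / 16) →
      (∀ θ ω, ∀ z ∈ D, ξ₁ (T θ ω) z = circleMap 0 1 θ * ξ₁ ω z ∧
        ξ₂ (T θ ω) z = circleMap 0 1 θ * ξ₂ ω z) →
      ∀ M : Ω → ℝ, Measurable M → (∀ ω, 1 ≤ M ω) → Integrable (fun ω => Real.log (M ω)) μ →
      (∀ᵐ ω ∂μ, Solvable D (fun z => f₁ z + ξ₁ ω z) (fun z => f₂ z + ξ₂ ω z) (M ω)) →
      Solvable D f₁ f₂ (C * Real.exp (∫ ω, Real.log (M ω) ∂μ))) ∧
    -- (3) the unsolvable parameters of a holomorphic family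
    (∀ (n : ℕ) (D : Set (EuclideanSpace ℂ (Fin n))), IsOpen D →
      ∀ δ R : ℝ, 0 < δ → ∀ F₁ F₂ : EuclideanSpace ℂ (Fin n) → ℂ → ℂ, Family D R F₁ → Family D R F₂ →
      (∀ z ∈ D, ∀ l ∈ ball (0 : ℂ) R, δ ≤ ‖F₁ z l‖ ^ 2 + ‖F₂ z l‖ ^ 2) →
      ((1 < R → (∀ l : ℂ, ‖l‖ = 1 → ∃ K, Solvable D (fun z => F₁ z l) (fun z => F₂ z l) K) →
        ∃ K, Solvable D (fun z => F₁ z 0) (fun z => F₂ z 0) K) ∧
      ∀ l₀ : ℂ, (¬ ∃ K, Solvable D (fun z => F₁ z l₀) (fun z => F₂ z l₀) K) → ∀ r : ℝ,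
        ball l₀ r ⊆ ball 0 R → ENNReal.ofReal r ≤ μH[1] {l | l ∈ ball l₀ r ∧
          ¬ ∃ K, Solvable D (fun z => F₁ z l) (fun z => F₂ z l) K})) ∧
    -- (4) three functions on a spherical shell
    ∃ (D : Set (EuclideanSpace ℂ (Fin 2))) (F : Fin 3 → EuclideanSpace ℂ (Fin 2) → ℂ → ℂ),
      D = {z | 1 / 2 < ‖z‖ ∧ ‖z‖ < 1} ∧ (∀ j, Family D 2 (F j)) ∧
      (∀ z ∈ D, ∀ l ∈ ball (0 : ℂ) 2, 1 / 4 ≤ ∑ j, ‖F j z l‖ ^ 2) ∧
      (∀ l : ℂ, ‖l‖ = 1 → ∃ h : Fin 3 → EuclideanSpace ℂ (Fin 2) → ℂ,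
        (∀ j, DifferentiableOn ℂ (h j) D) ∧ (∀ j, ∀ z ∈ D, ‖h j z‖ ≤ 2) ∧
        ∀ z ∈ D, ∑ j, F j z l * h j z = 1) ∧
      ¬ ∃ h : Fin 3 → EuclideanSpace ℂ (Fin 2) → ℂ, (∀ j, DifferentiableOn ℂ (h j) D) ∧
        ∀ z ∈ D, ∑ j, F j z 0 * h j z = 1 := by
  refine ⟨fun δ hδ => ?_, fun δ hδ hδ1 => ?_, fun n D hD δ R hδ F₁ F₂ h1 h2 hlow => ⟨?_, ?_⟩, ?_⟩
  · obtain ⟨C, hC0, hC⟩ := Q77.Cp.core hδ
    exact ⟨C, hC0, fun n D hD R hR F₁ F₂ h1 h2 hlow M hM hM1 hMi hsol =>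
      hC _ D hD R hR F₁ F₂ h1 h2 hlow M hM hM1 hMi hsol⟩
  · obtain ⟨C, hC0, hC⟩ := Q77.Cp.random hδ hδ1
    exact ⟨C, hC0, fun n => hC _⟩
  · intro hR hl
    exact Q77.Cp.good_centre hδ hD hR h1 h2 hlow hl
  · intro l₀ hl₀ r hr
    exact Q77.Cp.bad_length hδ hD h1 h2 hlow hl₀ hr
  · have hn : ∀ (z : EuclideanSpace ℂ (Fin 2)) (i : Fin 2), ‖z i‖ ≤ ‖z‖ := fun z i =>
      PiLp.norm_apply_le z i
    have hpd : ∀ (i : Fin 2) (D : Set (EuclideanSpace ℂ (Fin 2))),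
        DifferentiableOn ℂ (fun z : EuclideanSpace ℂ (Fin 2) => z i) D := fun i D =>
      ((EuclideanSpace.proj (𝕜 := ℂ) i).differentiable).differentiableOn
    refine ⟨Q77.Cp.shell, ![fun z _ => z 0, fun z _ => z 1, fun _ l => l / 2], rfl, ?_, ?_, ?_, ?_⟩
    · intro j
      fin_cases j
      · exact ⟨fun l _ => hpd 0 _, fun z _ => differentiableOn_const _,
          fun z hz l _ => (hn z 0).trans hz.2.le⟩
      · exact ⟨fun l _ => hpd 1 _, fun z _ => differentiableOn_const _,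
          fun z hz l _ => (hn z 1).trans hz.2.le⟩
      · refine ⟨fun l _ => differentiableOn_const _, fun z _ => differentiableOn_id.div_const _,
          fun z hz l hl => ?_⟩
        rw [mem_ball_zero_iff] at hl
        change ‖l / 2‖ ≤ 1
        rw [norm_div]
        norm_num
        linarith
    · intro z hz l _
      have h1 := EuclideanSpace.norm_sq_eq z
      rw [Fin.sum_univ_two] at h1
      rw [Fin.sum_univ_three]
      change 1 / 4 ≤ ‖z 0‖ ^ 2 + ‖z 1‖ ^ 2 + ‖l / 2‖ ^ 2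
      have h2 := hz.1
      have h3 := sq_nonneg ‖l / 2‖
      nlinarith
    · intro l hl
      have hl0 : l ≠ 0 := by
        intro h
        rw [h, norm_zero] at hl
        exact zero_ne_one hl
      refine ⟨![fun _ => 0, fun _ => 0, fun _ => 2 / l], ?_, ?_, ?_⟩
      · intro j
        fin_cases j
        · exact differentiableOn_const _
        · exact differentiableOn_const _
        · exact differentiableOn_const _
      · intro j z _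
        fin_cases j
        · change ‖(0 : ℂ)‖ ≤ 2
          norm_num
        · change ‖(0 : ℂ)‖ ≤ 2
          norm_num
        · change ‖2 / l‖ ≤ 2
          rw [norm_div, hl]
          norm_num
      · intro z _
        rw [Fin.sum_univ_three]
        change z 0 * 0 + z 1 * 0 + l / 2 * (2 / l) = 1
        field_simp
        ring
    · rintro ⟨h, hd, he⟩
      refine Q77.Cp.no_solution ⟨h 0, h 1, hd 0, fun z hz => ?_⟩
      have h1 := he z hz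
      rw [Fin.sum_univ_three] at h1
      have h2 : z 0 * h 0 z + z 1 * h 1 z + (0 : ℂ) / 2 * h 2 z = 1 := h1
      rw [zero_div, zero_mul, add_zero] at h2
      exact h2

end Pool.Agent.Results.MP_ca0fc2_an.LogPlurisubharmonic
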